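import Pool.Agent.L5helper21.FN.Main2
import Pool.Agent.L5helper21.FN.Stmt

/-!
# Nef cones of varieties all of whose extremal contractions are fibrations are simplicial

Let `X` be a projective variety over an algebraically closed field `k` of characteristic zero, given
by its generic point `y` (homogeneous coordinates in its function field `K`). Assume that

* the local rings of `X` are unique factorisation domains (for example `X` is smooth),
* the nef cone of `X` is spanned by finitely many semiample classes (for example `X` is Fano, by the
  cone theorem and the base point free theorem),
* every extremal contraction of `X` is a fibration.

Then the nef cone of `X` is simplicial.

Outline of the proof. The dual cone `NE(X)` is generated by finitely many extremal rays; let `T` be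
the set of these rays. The sum of the semiample generators which vanish on a ray `R` gives the
contraction of `R`, and all classes which vanish on `R` are pulled back from its image. Let `L_R` be
the algebraic closure in `K` of the function field of the image. We show that for each subset `Y` of
`T` which does not span `N_1(X)` there is a nonzero nef class which vanishes on `Y`.

Assume first that the intersection of the fields `L_R`, for `R` in `Y`, is `k`. Then two independent
generic points of `X` are connected by a chain of points such that consecutive points have the same
image under one of the contractions (this uses that `L_R` is algebraically closed in `K`), and, by
specialization, so are any two points of `X` with coordinates in a function field of one variable,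
after a finite extension of this field. A numerical class which is pulled back under all the
contractions of rays in `Y` therefore has degree zero on all curves; since there is a nonzero class
which vanishes on `Y`, this is impossible.

So there is a nonconstant function `f` in the intersection of these fields. Its polar divisor is a
Cartier divisor. Its class is nonnegative on general curves in the fibres of all the contractions,
which are fibrations, so it is nef; it is zero on the rays in `Y` since `f` is regular along general
fibres of these contractions; and it is not zero. Finally, a polyhedral cone with this property is
simplicial, by linear algebra. (The idea to use chains of curves in the fibres was noted
independently by helper25.)
-/

set_option autoImplicit false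

namespace Pool.Agent.Results.MP_cc17a8_ag.NefConeSimplicial

open Pool.Agent.L5helper21.FN

/-- Let `X` be a locally factorial projective variety, with the generic point `y`, over an
algebraically closed field `k` of characteristic zero. If the nef cone of `X` is spanned by finitely
many semiample classes and all extremal contractions of `X` are fibrations, then the nef cone is
simplicial. -/
theorem result (k : Type) [Field k] [IsAlgClosed k] [CharZero k] {K : Type} [Field K] [Algebra k K]
    {N : ℕ} (y : Fin (N + 1) → K) (hy : y ≠ 0) (hK : ratF k y = ⊤) (hfac : LocallyFactorial k y)
    (hsemi : FinSemiample k y) (hfib : FibreType k y) : Simplicial (NefCone k y) :=
  simplicial' (k := k) hy hK hfac hsemi fun R hR M z hz hz' => hfib R hR M z ⟨hz, hz'⟩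

end Pool.Agent.Results.MP_cc17a8_ag.NefConeSimplicial
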